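import Pool.Agent.H43.G.R_pool_sql_team_seeded_3997aac3.Q240.KT.Stm
import Pool.Agent.H43.G.R_pool_sql_team_seeded_3997aac3.Q278.KT.Stm
import Pool.Agent.H43.G.R_pool_sql_team_seeded_3997aac3.Q211.KS.Pow

/-!
# Project KT (helper240): the fourth moment in the form of helper278
-/

set_option autoImplicit false

namespace Pool.Agent.Q240.KT

open Finset Pool.Agent.H376R2.MR Pool.Agent.Q240.KS

/-- the number of integers with `|k| ≤ 2 T` -/
lemma card_le_T {T : ℝ} (hT : 1 ≤ T) {L : Finset ℤ} (h : ∀ k ∈ L, |(k : ℝ)| ≤ 2 * T) : (L.card : ℝ) ≤ 5 * T := by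
  have h1 : L ⊆ Icc (-(⌊2 * T⌋₊ : ℤ)) (⌊2 * T⌋₊ : ℤ) := by
    intro k hk
    have h2 := h k hk
    have h3 : k.natAbs ≤ ⌊2 * T⌋₊ := by
      apply Nat.le_floor
      rw [Nat.cast_natAbs, Int.cast_abs]
      exact h2
    rw [Finset.mem_Icc]
    omega
  have h2 := Finset.card_le_card h1
  rw [Int.card_Icc] at h2
  have h3 : L.card ≤ 2 * ⌊2 * T⌋₊ + 1 := by omega
  have h4 : (L.card : ℝ) ≤ 2 * (⌊2 * T⌋₊ : ℝ) + 1 := by exact_mod_cast h3
  have h5 : (⌊2 * T⌋₊ : ℝ) ≤ 2 * T := Nat.floor_le (by linarith)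
  linarith

theorem m4 (hLVR : S_LVR) (hLVM : S_LVM) (hSB1 : S_SB1) : Pool.Agent.Q278.KT.S_M4 := by
  intro ε hε
  obtain ⟨C₁, hC₁, h1⟩ := hLVR 2 ε (by norm_num) hε
  obtain ⟨C₂, hC₂, h2⟩ := hLVM 2 ε (by norm_num) hε
  obtain ⟨C₃, hC₃, h3⟩ := hSB1
  obtain ⟨C₄, hC₄, h4⟩ := Pool.Agent.Q211.KS.one_add_le_exp (show (0 : ℝ) < ε / 4 by positivity)
  refine ⟨2 * C₁ + 4 * C₂ + 80 * C₃ ^ 4 * C₄ ^ 4, ?_, ?_⟩
  · have : 0 ≤ 80 * C₃ ^ 4 * C₄ ^ 4 := by positivity
    linarith
  intro z t d T V L ht hT hV hL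
  have hT0 : 0 < T := by linarith
  have hd : (0 : ℝ) ≤ d := Nat.cast_nonneg d
  have hTe : 1 ≤ T ^ ε := Real.one_le_rpow hT hε.le
  have hde : 1 ≤ Real.exp (ε * d) := Real.one_le_exp (by positivity)
  set C : ℝ := 2 * C₁ + 4 * C₂ + 80 * C₃ ^ 4 * C₄ ^ 4 with hC
  have hC30 : 0 ≤ 80 * C₃ ^ 4 * C₄ ^ 4 := by positivity
  have hV4 : 0 < V ^ 4 := by positivity
  set E : ℝ := Real.exp (-((d : ℝ) / 10)) with hE
  have hE0 : 0 < E := Real.exp_pos _
  have hdE : Real.exp ((d : ℝ) / 10) * E = 1 := by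
    rw [hE, ← Real.exp_add]
    simp
  have hT7 : 0 ≤ 1 / T ^ 7 := by positivity
  rw [le_div_iff₀ hV4]
  by_cases hc1 : Real.exp ((d : ℝ) / 10) ≤ T
  · -- short factors
    have hTE : 1 ≤ T * E := by
      calc (1 : ℝ) = Real.exp ((d : ℝ) / 10) * E := hdE.symm
        _ ≤ T * E := mul_le_mul_of_nonneg_right hc1 hE0.le
    set K : ℕ := ⌊2 * T⌋₊ + 1 with hK
    have hK3 : (K : ℝ) ≤ 3 * T := by
      rw [hK]
      push_cast
      have := Nat.floor_le (show (0 : ℝ) ≤ 2 * T by linarith)
      linarith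
    have h5 := h2 z t d K V L (by omega) hV (fun k hk => by
      obtain ⟨-, h6, h7⟩ := hL k hk
      refine ⟨?_, h7⟩
      have h8 : |(k : ℝ)| < K := by
        rw [hK]
        push_cast
        have := Nat.lt_floor_add_one (2 * T)
        linarith
      have h9 : |k| < (K : ℤ) := by exact_mod_cast h8
      unfold FK
      rw [Finset.mem_Ioo]
      exact abs_lt.1 h9)
    have e1 : Real.exp (-(((2 : ℕ) : ℝ) * (d : ℝ) / 20)) = E := by
      rw [hE]
      congr 1
      push_cast
      ring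
    rw [e1, show 2 * 2 = 4 from rfl, le_div_iff₀ hV4] at h5
    calc (L.card : ℝ) * V ^ 4 ≤ C₂ * Real.exp (ε * d) * (1 + K * E) := h5
      _ ≤ C₂ * Real.exp (ε * d) * (4 * (T * E)) := by
          apply mul_le_mul_of_nonneg_left _ (by positivity)
          have : (K : ℝ) * E ≤ 3 * T * E := mul_le_mul_of_nonneg_right hK3 hE0.le
          linarith
      _ = 4 * C₂ * Real.exp (ε * d) * 1 * (T * E) := by ring
      _ ≤ C * Real.exp (ε * d) * T ^ ε * (T * E + 1 / T ^ 7) := by
          apply mul_le_mul _ (by linarith) (by positivity) (by positivity)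
          apply mul_le_mul _ hTe (by norm_num) (by positivity)
          apply mul_le_mul_of_nonneg_right _ (by positivity)
          linarith
  · push Not at hc1
    have hTE : T * E ≤ 1 := by
      calc T * E ≤ Real.exp ((d : ℝ) / 10) * E := mul_le_mul_of_nonneg_right hc1.le hE0.le
        _ = 1 := hdE
    by_cases hc2 : Real.exp ((d : ℝ) / 20) ≤ 10 * T
    · -- reflection
      have h5 := h1 z t d T V L ht hT hc2 hV hL
      have e1 : Real.exp (-(((2 : ℕ) : ℝ) * (d : ℝ) / 20)) = E := by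
        rw [hE]
        congr 1
        push_cast
        ring
      have e2 : Real.exp (-(((2 : ℕ) : ℝ) * (d : ℝ) / 10)) = E * E := by
        rw [hE, ← Real.exp_add]
        congr 1
        push_cast
        ring
      rw [e1, e2, show 2 * 2 = 4 from rfl, le_div_iff₀ hV4] at h5
      have h6 : T ^ 2 * (E * E) ≤ T * E := by
        have : (T * E) * (T * E) ≤ (T * E) * 1 := mul_le_mul_of_nonneg_left hTE (by positivity)
        nlinarith
      calc (L.card : ℝ) * V ^ 4 ≤ C₁ * T ^ ε * (T * E + T ^ 2 * (E * E)) := h5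
        _ ≤ C₁ * T ^ ε * (2 * (T * E)) := mul_le_mul_of_nonneg_left (by linarith) (by positivity)
        _ = 2 * C₁ * 1 * T ^ ε * (T * E) := by ring
        _ ≤ C * Real.exp (ε * d) * T ^ ε * (T * E + 1 / T ^ 7) := by
            apply mul_le_mul _ (by linarith) (by positivity) (by positivity)
            apply mul_le_mul_of_nonneg_right _ (by positivity)
            exact mul_le_mul (by linarith) hde (by norm_num) (by linarith)
    · -- long factors
      push Not at hc2
      rcases L.eq_empty_or_nonempty with rfl | ⟨k, hk⟩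
      · rw [Finset.card_empty, Nat.cast_zero, zero_mul]
        positivity
      have hcard := card_le_T hT (fun k hk => (hL k hk).2.1)
      obtain ⟨h5, h6, h7⟩ := hL k hk
      have hk0 : k ≠ 0 := by
        rintro rfl
        simp at h5
        linarith
      have h8 : |(k : ℝ)| ≤ Real.exp ((d : ℝ) / 20 - 1) := by
        rw [Real.exp_sub, le_div_iff₀ (Real.exp_pos _)]
        have h9 := Real.exp_one_lt_d9
        have h10 : |(k : ℝ)| * Real.exp 1 ≤ 2 * T * 5 := by
          apply mul_le_mul h6 (by linarith) (Real.exp_pos _).le (by linarith)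
        linarith
      have h9 := h3 z t d k ht hk0 h8
      have h10 : 1 / (k : ℝ) ^ 2 ≤ 1 / T ^ 2 := by
        apply one_div_le_one_div_of_le (by positivity)
        rw [← sq_abs (k : ℝ)]
        exact pow_le_pow_left₀ hT0.le h5 2
      have h11 : E ≤ 1 / T ^ 2 := by
        have h12 : T ^ 2 ≤ Real.exp ((d : ℝ) / 10) := by
          have h13 : T ≤ Real.exp ((d : ℝ) / 20) := by linarith
          calc T ^ 2 ≤ Real.exp ((d : ℝ) / 20) ^ 2 := pow_le_pow_left₀ hT0.le h13 2
            _ = Real.exp ((d : ℝ) / 10) := by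
                rw [← Real.exp_nat_mul]
                congr 1
                push_cast
                ring
        rw [le_div_iff₀ (by positivity)]
        calc E * T ^ 2 ≤ E * Real.exp ((d : ℝ) / 10) := mul_le_mul_of_nonneg_left h12 hE0.le
          _ = 1 := by rw [mul_comm]; exact hdE
      have h12 : V ≤ 2 * C₃ * C₄ * Real.exp (ε / 4 * d) * (1 / T ^ 2) := by
        calc V ≤ C₃ * (1 + d) * (1 / (k : ℝ) ^ 2 + E) := h7.trans h9
          _ ≤ C₃ * (C₄ * Real.exp (ε / 4 * d)) * (1 / T ^ 2 + 1 / T ^ 2) := by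
              apply mul_le_mul _ (by linarith) (by positivity) (by positivity)
              exact mul_le_mul_of_nonneg_left (h4 d hd) (by linarith)
          _ = _ := by ring
      have h13 : V ^ 4 ≤ 16 * C₃ ^ 4 * C₄ ^ 4 * Real.exp (ε * d) * (1 / T ^ 8) := by
        calc V ^ 4 ≤ (2 * C₃ * C₄ * Real.exp (ε / 4 * d) * (1 / T ^ 2)) ^ 4 := pow_le_pow_left₀ hV.le h12 4
          _ = 16 * C₃ ^ 4 * C₄ ^ 4 * (Real.exp (ε / 4 * d)) ^ 4 * (1 / T ^ 8) := by
              rw [mul_pow, mul_pow, mul_pow, mul_pow]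
              field_simp
              ring
          _ = _ := by
              rw [← Real.exp_nat_mul]
              congr 3
              push_cast
              ring
      calc (L.card : ℝ) * V ^ 4 ≤ (5 * T) * (16 * C₃ ^ 4 * C₄ ^ 4 * Real.exp (ε * d) * (1 / T ^ 8)) :=
            mul_le_mul hcard h13 hV4.le (by linarith)
        _ = 80 * C₃ ^ 4 * C₄ ^ 4 * Real.exp (ε * d) * 1 * (1 / T ^ 7) := by
            field_simp
            ring
        _ ≤ C * Real.exp (ε * d) * T ^ ε * (T * E + 1 / T ^ 7) := by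
            apply mul_le_mul _ _ (by positivity) (by positivity)
            · apply mul_le_mul _ hTe (by norm_num) (by positivity)
              apply mul_le_mul_of_nonneg_right _ (by positivity)
              linarith
            · have : 0 ≤ T * E := by positivity
              linarith

theorem near2' (h : Pool.Agent.Q240.KT.S_NEAR2) : Pool.Agent.Q278.KT.S_NEAR2 := h

end Pool.Agent.Q240.KT
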